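import Mathlib
import Pool.Agent.HinfCoh.Core

set_option autoImplicit false

open Filter Topology

namespace Pool.Agent.Results.MP_b621dd_an.BallIntersection

open Pool.Agent.HinfCoh

/-- The open unit ball `B²` of `ℂ²`: all `(z₁, z₂)` with `|z₁|² + |z₂|² < 1`. -/
def unitBall2 : Set (ℂ × ℂ) := {p | ‖p.1‖ ^ 2 + ‖p.2‖ ^ 2 < 1}

lemma isOpen_ball2 : IsOpen unitBall2 := by
  unfold unitBall2
  exact isOpen_lt (by fun_prop) continuous_const

lemma fst_mem {p : ℂ × ℂ} (hp : p ∈ unitBall2) : p.1 ∈ Metric.ball (0 : ℂ) 1 := by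
  have h : ‖p.1‖ ^ 2 + ‖p.2‖ ^ 2 < 1 := hp
  simp only [Metric.mem_ball, dist_zero_right]
  have h2 := sq_nonneg ‖p.2‖
  have h3 := norm_nonneg p.1
  nlinarith

lemma one_sub_mul_pow_le {x : ℝ} (h0 : 0 ≤ x) (h1 : x ≤ 1) (n : ℕ) :
    (1 - x) * x ^ n ≤ 1 / (n + 1) := by
  have hg := geom_sum_mul_neg x (n + 1)
  have h2 : ((n : ℝ) + 1) * x ^ n ≤ ∑ i ∈ Finset.range (n + 1), x ^ i := by
    calc ((n : ℝ) + 1) * x ^ n = ∑ i ∈ Finset.range (n + 1), x ^ n := by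
          rw [Finset.sum_const, Finset.card_range, nsmul_eq_mul]; push_cast; ring
      _ ≤ ∑ i ∈ Finset.range (n + 1), x ^ i := by
          apply Finset.sum_le_sum
          intro i hi
          exact pow_le_pow_of_le_one h0 h1 (by simpa [Nat.lt_succ_iff] using hi)
  have h3 : 0 ≤ x ^ (n + 1) := by positivity
  have h4 : 0 ≤ 1 - x := by linarith
  rw [le_div_iff₀ (by positivity)]
  nlinarith [mul_le_mul_of_nonneg_right h2 h4]

lemma term_le {t s : ℝ} (ht0 : 0 ≤ t) (ht1 : t < 1) (_hs0 : 0 ≤ s) (hs : s ^ 4 = 1 - t ^ 2)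
    (j : ℕ) : s * ((NN j : ℝ) * t ^ (MM j - 1)) ≤ ((NN j : ℝ))⁻¹ := by
  have hN : (0 : ℝ) < NN j := by exact_mod_cast NN_pos j
  have hM := MM_pos j
  have h1 : (s * t ^ (MM j - 1)) ^ 4 ≤ (((NN j : ℝ) ^ 2)⁻¹) ^ 4 := by
    have e1 : (s * t ^ (MM j - 1)) ^ 4 = (1 - t ^ 2) * (t ^ 2) ^ (MM j - 1) *
        (t ^ 2) ^ (MM j - 1) := by
      rw [mul_pow, hs]
      ring
    have e2 : (1 - t ^ 2) * (t ^ 2) ^ (MM j - 1) ≤ 1 / (((MM j - 1 : ℕ) : ℝ) + 1) :=
      one_sub_mul_pow_le (by positivity) (by nlinarith) _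
    have e3 : (((MM j - 1 : ℕ) : ℝ) + 1) = (NN j : ℝ) ^ 8 := by
      rw [Nat.cast_sub hM]
      unfold MM
      push_cast
      ring
    rw [e3] at e2
    have e4 : (t ^ 2) ^ (MM j - 1) ≤ 1 := pow_le_one₀ (by positivity) (by nlinarith)
    have e5 : (0 : ℝ) ≤ (t ^ 2) ^ (MM j - 1) := by positivity
    have e6 : (0 : ℝ) ≤ 1 / (NN j : ℝ) ^ 8 := by positivity
    rw [e1]
    calc (1 - t ^ 2) * (t ^ 2) ^ (MM j - 1) * (t ^ 2) ^ (MM j - 1)
        ≤ 1 / (NN j : ℝ) ^ 8 * 1 := mul_le_mul e2 e4 e5 e6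
      _ = (((NN j : ℝ) ^ 2)⁻¹) ^ 4 := by
          rw [mul_one, inv_pow, ← pow_mul, one_div]
  have h2 : s * t ^ (MM j - 1) ≤ ((NN j : ℝ) ^ 2)⁻¹ :=
    le_of_pow_le_pow_left₀ (by norm_num) (by positivity) h1
  calc s * ((NN j : ℝ) * t ^ (MM j - 1)) = (NN j : ℝ) * (s * t ^ (MM j - 1)) := by ring
    _ ≤ (NN j : ℝ) * ((NN j : ℝ) ^ 2)⁻¹ := mul_le_mul_of_nonneg_left h2 hN.le
    _ = ((NN j : ℝ))⁻¹ := by
        field_simp

lemma summable_inv : Summable (fun j => ((NN j : ℝ))⁻¹) := by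
  refine Summable.of_nonneg_of_le (fun j => by positivity) (fun j => ?_) summable_geometric_two
  have h : (2 : ℝ) ^ j ≤ NN j := by exact_mod_cast two_pow_le_NN j
  rw [one_div, inv_pow]
  exact inv_anti₀ (by positivity) h

/-- growth bound -/
lemma growth (A : Set ℕ) {z : ℂ} (hz : ‖z‖ < 1) {s : ℝ} (hs0 : 0 ≤ s)
    (hs : s ^ 4 = 1 - ‖z‖ ^ 2) : s * ‖psi A z‖ ≤ ∑' j, ((NN j : ℝ))⁻¹ := by
  have hsum := summable_maj (norm_nonneg z) hz
  calc s * ‖psi A z‖ ≤ s * ∑' j, (NN j : ℝ) * ‖z‖ ^ (MM j - 1) :=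
        mul_le_mul_of_nonneg_left (norm_psi_le A hz) hs0
    _ = ∑' j, s * ((NN j : ℝ) * ‖z‖ ^ (MM j - 1)) := by rw [tsum_mul_left]
    _ ≤ ∑' j, ((NN j : ℝ))⁻¹ :=
        (hsum.mul_left s).tsum_le_tsum (fun j => term_le (norm_nonneg z) hz hs0 hs j) summable_inv

lemma exists_s {p : ℂ × ℂ} (hp : p ∈ unitBall2) :
    ∃ s : ℝ, 0 ≤ s ∧ s ≤ 1 ∧ s ^ 4 = 1 - ‖p.1‖ ^ 2 ∧ ‖p.2‖ ≤ s * s := by
  have h : ‖p.1‖ ^ 2 + ‖p.2‖ ^ 2 < 1 := hp
  have h1 : 0 ≤ 1 - ‖p.1‖ ^ 2 := by nlinarith [sq_nonneg ‖p.2‖]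
  have e1 : (Real.sqrt (Real.sqrt (1 - ‖p.1‖ ^ 2))) ^ 4 = 1 - ‖p.1‖ ^ 2 := by
    have : (Real.sqrt (Real.sqrt (1 - ‖p.1‖ ^ 2))) ^ 4 =
      ((Real.sqrt (Real.sqrt (1 - ‖p.1‖ ^ 2))) ^ 2) ^ 2 := by ring
    rw [this, Real.sq_sqrt (Real.sqrt_nonneg _), Real.sq_sqrt h1]
  refine ⟨Real.sqrt (Real.sqrt (1 - ‖p.1‖ ^ 2)), Real.sqrt_nonneg _, ?_, e1, ?_⟩
  · apply Real.sqrt_le_one.mpr
    apply Real.sqrt_le_one.mpr
    nlinarith [sq_nonneg ‖p.1‖]
  · rw [Real.mul_self_sqrt (Real.sqrt_nonneg _)]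
    apply Real.le_sqrt_of_sq_le
    linarith

lemma bound_one (A : Set ℕ) : ∀ p ∈ unitBall2, ‖p.2 * psi A p.1‖ ≤ ∑' j, ((NN j : ℝ))⁻¹ := by
  intro p hp
  obtain ⟨s, hs0, hs1, hs4, hw⟩ := exists_s hp
  have hz : ‖p.1‖ < 1 := by simpa using fst_mem hp
  have h1 := growth A hz hs0 hs4
  rw [norm_mul]
  have h2 := norm_nonneg (psi A p.1)
  have h3 : ‖p.2‖ ≤ s := by nlinarith
  nlinarith

lemma bound_two (A : Set ℕ) : ∀ p ∈ unitBall2,
    ‖p.2 * psi Set.univ p.1 * psi A p.1‖ ≤ (∑' j, ((NN j : ℝ))⁻¹) * ∑' j, ((NN j : ℝ))⁻¹ := by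
  intro p hp
  obtain ⟨s, hs0, hs1, hs4, hw⟩ := exists_s hp
  have hz : ‖p.1‖ < 1 := by simpa using fst_mem hp
  have h1 := growth A hz hs0 hs4
  have h2 := growth Set.univ hz hs0 hs4
  rw [norm_mul, norm_mul]
  calc ‖p.2‖ * ‖psi Set.univ p.1‖ * ‖psi A p.1‖
      ≤ (s * s) * ‖psi Set.univ p.1‖ * ‖psi A p.1‖ := by gcongr
    _ = (s * ‖psi Set.univ p.1‖) * (s * ‖psi A p.1‖) := by ring
    _ ≤ _ := mul_le_mul h2 h1 (by positivity) ((mul_nonneg hs0 (norm_nonneg _)).trans h2)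

lemma psi_fst_diff (A : Set ℕ) : DifferentiableOn ℂ (fun p : ℂ × ℂ => psi A p.1) unitBall2 :=
  (psi_differentiableOn A).comp differentiable_fst.differentiableOn (fun _ hp => fst_mem hp)

/-- the function `w` -/
noncomputable def ff : Hinf unitBall2 := mk (fun p => p.2) (by fun_prop)
  ⟨1, fun p hp => by
    have h : ‖p.1‖ ^ 2 + ‖p.2‖ ^ 2 < 1 := hp
    have h1 := norm_nonneg p.2
    nlinarith [sq_nonneg ‖p.1‖]⟩

/-- the function `w ψ_A(z)` -/
noncomputable def gg (A : Set ℕ) : Hinf unitBall2 := mk (fun p => p.2 * psi A p.1)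
  (differentiable_snd.differentiableOn.mul (psi_fst_diff A)) ⟨_, bound_one A⟩

/-- the function `w φ(z) ψ_A(z)` -/
noncomputable def aa (A : Set ℕ) : Hinf unitBall2 := mk (fun p => p.2 * psi Set.univ p.1 * psi A p.1)
  ((differentiable_snd.differentiableOn.mul (psi_fst_diff _)).mul (psi_fst_diff A))
  ⟨_, bound_two A⟩

lemma resultAux :
    ∃ I J : Ideal (Hinf unitBall2),
    I.IsPrincipal ∧ J.IsPrincipal ∧ ¬ (I ⊓ J).FG := by
  refine ⟨Ideal.span {ff}, Ideal.span {gg Set.univ}, ⟨⟨ff, rfl⟩⟩, ⟨⟨gg Set.univ, rfl⟩⟩, ?_⟩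
  have hz0 : ∀ z ∈ Metric.ball (0 : ℂ) 1, (z, (0 : ℂ)) ∈ unitBall2 := by
    intro z hz
    have hz' : ‖z‖ < 1 := by simpa using hz
    have := norm_nonneg z
    unfold unitBall2
    simp only [Set.mem_ofPred_eq, norm_zero]
    nlinarith
  apply not_fg isOpen_ball2 0
  · intro z hz
    rw [zero_mul]; exact hz0 z hz
  · -- limits of elements
    intro F hF
    obtain ⟨hF1, hF2⟩ := hF
    obtain ⟨a, ha⟩ := Ideal.mem_span_singleton'.mp hF1
    obtain ⟨b, hb⟩ := Ideal.mem_span_singleton'.mp hF2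
    have hcont : ∀ z ∈ Metric.ball (0 : ℂ) 1,
        Tendsto (fun t : ℂ => (z, t)) (𝓝[≠] 0) (𝓝 (z, (0 : ℂ))) := by
      intro z _
      have : Continuous (fun t : ℂ => (z, t)) := by fun_prop
      exact (this.tendsto 0).mono_left nhdsWithin_le_nhds
    have hev : ∀ z ∈ Metric.ball (0 : ℂ) 1, ∀ᶠ t : ℂ in 𝓝[≠] 0, (z, t) ∈ unitBall2 := by
      intro z hz
      exact (hcont z hz).eventually (isOpen_ball2.mem_nhds (hz0 z hz))
    have hca : ∀ (f : Hinf unitBall2), ∀ z ∈ Metric.ball (0 : ℂ) 1,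
        Tendsto (fun t : ℂ => ext f (z, t)) (𝓝[≠] 0) (𝓝 (ext f (z, 0))) := by
      intro f z hz
      have : ContinuousAt (ext f) (z, (0 : ℂ)) :=
        ((ext_diff f).differentiableAt (isOpen_ball2.mem_nhds (hz0 z hz))).continuousAt
      exact this.tendsto.comp (hcont z hz)
    have hFa : ∀ p ∈ unitBall2, ext F p = ext a p * p.2 := by
      intro p hp
      rw [← ha, ext_mul _ _ hp]
      congr 1
      exact ext_mk _ _ _ hp
    have hFb : ∀ p ∈ unitBall2, ext F p = ext b p * (p.2 * psi Set.univ p.1) := by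
      intro p hp
      rw [← hb, ext_mul _ _ hp]
      congr 1
      exact ext_mk _ _ _ hp
    have hab : ∀ z ∈ Metric.ball (0 : ℂ) 1, ext a (z, 0) = psi Set.univ z * ext b (z, 0) := by
      intro z hz
      have h1 := hca a z hz
      have h2 := (hca b z hz).const_mul (psi Set.univ z)
      refine tendsto_nhds_unique h1 (h2.congr' ?_)
      filter_upwards [hev z hz, self_mem_nhdsWithin] with t ht ht0
      have h3 := hFa _ ht
      have h4 := hFb _ ht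
      rw [h3] at h4
      simp only at h4
      have ht0' : t ≠ 0 := ht0
      have h5 : (ext a (z, t) - psi Set.univ z * ext b (z, t)) * t = 0 := by
        linear_combination h4
      rcases mul_eq_zero.mp h5 with h6 | h6
      · exact (sub_eq_zero.mp h6).symm
      · exact absurd h6 ht0'
    have hb0 : ∀ z ∈ Metric.ball (0 : ℂ) 1, ext b (z, 0) = 0 := by
      obtain ⟨C, hC⟩ := ext_bdd a
      have hdb : DifferentiableOn ℂ (fun z => ext b (z, 0)) (Metric.ball 0 1) := by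
        apply (ext_diff b).comp (t := unitBall2)
        · fun_prop
        · intro z hz; exact hz0 z hz
      apply eq_zero_of_psi_mul_bdd hdb C
      intro z hz
      rw [← hab z hz]
      exact hC _ (hz0 z hz)
    intro z hz
    have ha0 : ext a (z, 0) = 0 := by rw [hab z hz, hb0 z hz, mul_zero]
    have hd : DifferentiableAt ℂ (fun t : ℂ => ext a (z, t)) 0 := by
      have h1 : DifferentiableAt ℂ (ext a) (z, (0 : ℂ)) :=
        (ext_diff a).differentiableAt (isOpen_ball2.mem_nhds (hz0 z hz))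
      have h2 : DifferentiableAt ℂ (fun t : ℂ => (z, t)) 0 := by fun_prop
      exact DifferentiableAt.comp (0 : ℂ) h1 h2
    have hs := hd.hasDerivAt.tendsto_slope_zero
    refine ⟨_, hs.congr' ?_⟩
    filter_upwards [hev z hz, self_mem_nhdsWithin] with t ht ht0
    have ht0' : t ≠ 0 := ht0
    simp only [zero_add, zero_mul, smul_eq_mul, ha0, sub_zero]
    rw [hFa _ ht]
    field_simp
  · intro A
    refine ⟨gg Set.univ * gg A, ⟨?_, ?_⟩, ?_⟩
    · apply Ideal.mem_span_singleton'.mpr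
      refine ⟨aa A, ?_⟩
      apply Subtype.ext
      funext p
      show (p.1.2 * psi Set.univ p.1.1 * psi A p.1.1) * p.1.2 =
        (p.1.2 * psi Set.univ p.1.1) * (p.1.2 * psi A p.1.1)
      ring
    · exact Ideal.mem_span_singleton'.mpr ⟨gg A, mul_comm _ _⟩
    · intro z hz
      have hcont : Tendsto (fun t : ℂ => (z, 0 * z + t)) (𝓝[≠] 0) (𝓝 (z, (0 : ℂ))) := by
        have : Continuous (fun t : ℂ => (z, 0 * z + t)) := by fun_prop
        have h := this.tendsto 0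
        simp only [add_zero, zero_mul] at h
        exact (h.mono_left nhdsWithin_le_nhds).congr (fun t => by rw [zero_mul])
      have hev : ∀ᶠ t : ℂ in 𝓝[≠] 0, (z, 0 * z + t) ∈ unitBall2 :=
        hcont.eventually (isOpen_ball2.mem_nhds (hz0 z hz))
      refine tendsto_const_nhds.congr' ?_
      filter_upwards [hev, self_mem_nhdsWithin] with t ht ht0
      have ht0' : t ≠ 0 := ht0
      rw [ext_mul _ _ ht]
      have e1 : ext (gg Set.univ) (z, 0 * z + t) = (0 * z + t) * psi Set.univ z := ext_mk _ _ _ ht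
      have e2 : ext (gg A) (z, 0 * z + t) = (0 * z + t) * psi A z := ext_mk _ _ _ ht
      rw [e1, e2]
      field_simp
      ring

/-- The ring `H^∞(B²)` of bounded holomorphic functions on `unitBall2`. -/
def HinfBall2 : Type := Hinf unitBall2

/-- Its ring structure: pointwise addition and multiplication. -/
noncomputable instance : CommRing HinfBall2 := (Hinf unitBall2).toCommRing

/-- There are two principal ideals of `H^∞(B²)` whose intersection is not finitely generated. -/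
theorem result : ∃ I J : Ideal HinfBall2, I.IsPrincipal ∧ J.IsPrincipal ∧ ¬ (I ⊓ J).FG :=
  resultAux

end Pool.Agent.Results.MP_b621dd_an.BallIntersection
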