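import Mathlib
import Pool.Agent.HinfCoh.Core

set_option autoImplicit false

open Filter Topology

namespace Pool.Agent.Results.MP_b621dd_an.BidiscIntersection

open Pool.Agent.HinfCoh

/-- The open unit bidisc `D²` in `ℂ²`: all `(z₁, z₂)` with `|z₁| < 1` and `|z₂| < 1`. -/
def bidisc : Set (ℂ × ℂ) := {p | ‖p.1‖ < 1 ∧ ‖p.2‖ < 1}

lemma isOpen_bidisc : IsOpen bidisc := by
  have h1 : IsOpen {p : ℂ × ℂ | ‖p.1‖ < 1} := isOpen_lt (by fun_prop) continuous_const
  have h2 : IsOpen {p : ℂ × ℂ | ‖p.2‖ < 1} := isOpen_lt (by fun_prop) continuous_const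
  exact h1.inter h2

/-- terms of the primitive -/
noncomputable def ht (A : Set ℕ) (j : ℕ) (z : ℂ) : ℂ :=
  A.indicator (fun j => ((NN j : ℂ) / (MM j : ℂ)) * z ^ (MM j)) j

/-- the primitive of `psi A` -/
noncomputable def hh (A : Set ℕ) (z : ℂ) : ℂ := ∑' j, ht A j z

lemma ht_deriv (A : Set ℕ) (j : ℕ) (z : ℂ) : HasDerivAt (ht A j) (tm A z j) z := by
  unfold ht tm
  by_cases h : j ∈ A
  · simp only [Set.indicator_of_mem h]
    have hM : (MM j : ℂ) ≠ 0 := by exact_mod_cast (MM_pos j).ne'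
    have := (hasDerivAt_pow (MM j) z).const_mul ((NN j : ℂ) / (MM j : ℂ))
    have e : (NN j : ℂ) / (MM j : ℂ) * ((MM j : ℂ) * z ^ (MM j - 1)) =
        (NN j : ℂ) * z ^ (MM j - 1) := by
      field_simp
    rw [e] at this
    exact this
  · simp only [Set.indicator_of_notMem h]
    exact hasDerivAt_const _ _

lemma norm_ht_le (A : Set ℕ) (j : ℕ) {z : ℂ} (hz : ‖z‖ ≤ 1) : ‖ht A j z‖ ≤ (1 / 2) ^ j := by
  unfold ht
  by_cases h : j ∈ A
  · rw [Set.indicator_of_mem h, norm_mul, norm_pow, norm_div, Complex.norm_natCast,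
      Complex.norm_natCast]
    have h1 : ‖z‖ ^ MM j ≤ 1 := pow_le_one₀ (norm_nonneg _) hz
    have h2 : (NN j : ℝ) / MM j ≤ (1 / 2) ^ j := by
      have hN : (0 : ℝ) < NN j := by exact_mod_cast NN_pos j
      have h3 : (2 : ℝ) ^ j ≤ NN j := by exact_mod_cast two_pow_le_NN j
      have h4 : (1 : ℝ) ≤ NN j := by exact_mod_cast NN_pos j
      unfold MM
      push_cast
      have h5 : (NN j : ℝ) / (NN j : ℝ) ^ 8 = 1 / (NN j : ℝ) ^ 7 := by
        field_simp
      rw [h5, one_div_pow]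
      apply one_div_le_one_div_of_le (by positivity)
      calc (2 : ℝ) ^ j ≤ NN j := h3
        _ ≤ (NN j : ℝ) ^ 7 := le_self_pow₀ h4 (by norm_num)
    calc (NN j : ℝ) / MM j * ‖z‖ ^ MM j ≤ (1 / 2) ^ j * 1 :=
          mul_le_mul h2 h1 (by positivity) (by positivity)
      _ = (1 / 2) ^ j := mul_one _
  · rw [Set.indicator_of_notMem h, norm_zero]; positivity

lemma summable_ht (A : Set ℕ) {z : ℂ} (hz : ‖z‖ ≤ 1) : Summable (fun j => ht A j z) :=
  Summable.of_norm_bounded summable_geometric_two (fun j => norm_ht_le A j hz)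

lemma norm_hh_le (A : Set ℕ) {z : ℂ} (hz : ‖z‖ ≤ 1) : ‖hh A z‖ ≤ 2 := by
  unfold hh
  have := tsum_of_norm_bounded summable_geometric_two.hasSum (fun j => norm_ht_le A j hz)
  rwa [tsum_geometric_two] at this

lemma hh_deriv (A : Set ℕ) {z : ℂ} (hz : z ∈ Metric.ball (0 : ℂ) 1) :
    HasDerivAt (hh A) (psi A z) z := by
  have hz' : ‖z‖ < 1 := by simpa using hz
  obtain ⟨ρ, hzρ, hρ1⟩ := exists_between hz'
  have hρ0 : 0 ≤ ρ := (norm_nonneg z).trans hzρ.le
  unfold hh psi
  apply hasDerivAt_tsum_of_isPreconnected (g := ht A) (g' := fun j y => tm A y j)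
    (summable_maj hρ0 hρ1) (t := Metric.ball 0 ρ)
    Metric.isOpen_ball (convex_ball _ _).isPreconnected (y₀ := z)
  · intro j y _
    exact ht_deriv A j y
  · intro j y hy
    have hy' : ‖y‖ < ρ := by simpa using hy
    refine (norm_tm_le A y j).trans ?_
    gcongr
  · simpa using hzρ
  · exact summable_ht A hz'.le
  · simpa using hzρ

lemma hh_diff (A : Set ℕ) : DifferentiableOn ℂ (hh A) (Metric.ball 0 1) :=
  fun _ hz => (hh_deriv A hz).differentiableAt.differentiableWithinAt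

lemma hh_strict (A : Set ℕ) {z : ℂ} (hz : z ∈ Metric.ball (0 : ℂ) 1) :
    HasStrictDerivAt (hh A) (psi A z) z := by
  have h1 := ((hh_diff A).analyticAt (Metric.isOpen_ball.mem_nhds hz)).hasStrictDerivAt
  rwa [(hh_deriv A hz).deriv] at h1

lemma pow_sub_sq_le {z w : ℂ} (hz : ‖z‖ ≤ 1) (hw : ‖w‖ ≤ 1) (M : ℕ) :
    ‖z ^ M - w ^ M‖ ^ 2 ≤ 2 * M * ‖z - w‖ := by
  have h1 : ‖z ^ M - w ^ M‖ ≤ M * ‖z - w‖ := by
    rw [← (Commute.all z w).geom_sum₂_mul M, norm_mul]
    apply mul_le_mul_of_nonneg_right _ (norm_nonneg _)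
    refine (norm_sum_le _ _).trans ?_
    calc ∑ i ∈ Finset.range M, ‖z ^ i * w ^ (M - 1 - i)‖ ≤ ∑ i ∈ Finset.range M, (1 : ℝ) := by
          apply Finset.sum_le_sum
          intro i _
          rw [norm_mul, norm_pow, norm_pow]
          exact mul_le_one₀ (pow_le_one₀ (norm_nonneg _) hz) (by positivity)
            (pow_le_one₀ (norm_nonneg _) hw)
      _ = M := by simp
  have h2 : ‖z ^ M - w ^ M‖ ≤ 2 := by
    refine (norm_sub_le _ _).trans ?_
    rw [norm_pow, norm_pow]
    have := pow_le_one₀ (n := M) (norm_nonneg z) hz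
    have := pow_le_one₀ (n := M) (norm_nonneg w) hw
    linarith
  have h3 := norm_nonneg (z ^ M - w ^ M)
  calc ‖z ^ M - w ^ M‖ ^ 2 = ‖z ^ M - w ^ M‖ * ‖z ^ M - w ^ M‖ := sq _
    _ ≤ 2 * (M * ‖z - w‖) := mul_le_mul h2 h1 h3 (by norm_num)
    _ = 2 * M * ‖z - w‖ := by ring

lemma hh_holder (A : Set ℕ) {z w : ℂ} (hz : ‖z‖ ≤ 1) (hw : ‖w‖ ≤ 1) :
    ‖hh A z - hh A w‖ ≤ 2 * Real.sqrt (2 * ‖z - w‖) := by
  have hs : Summable (fun j : ℕ => ((1 : ℝ) / 2) ^ j * Real.sqrt (2 * ‖z - w‖)) :=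
    summable_geometric_two.mul_right _
  have h1 : hh A z - hh A w = ∑' j, (ht A j z - ht A j w) := by
    unfold hh
    rw [(summable_ht A hz).tsum_sub (summable_ht A hw)]
  rw [h1]
  have h2 : ∑' j : ℕ, ((1 : ℝ) / 2) ^ j * Real.sqrt (2 * ‖z - w‖) =
      2 * Real.sqrt (2 * ‖z - w‖) := by
    rw [tsum_mul_right, tsum_geometric_two]
  rw [← h2]
  apply tsum_of_norm_bounded hs.hasSum
  intro j
  unfold ht
  by_cases h : j ∈ A
  · rw [Set.indicator_of_mem h, Set.indicator_of_mem h, ← mul_sub, norm_mul, norm_div,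
      Complex.norm_natCast, Complex.norm_natCast]
    have hN : (0 : ℝ) < NN j := by exact_mod_cast NN_pos j
    have hN1 : (1 : ℝ) ≤ NN j := by exact_mod_cast NN_pos j
    have h3 : ‖z ^ MM j - w ^ MM j‖ ≤ (NN j : ℝ) ^ 4 * Real.sqrt (2 * ‖z - w‖) := by
      have h4 := pow_sub_sq_le hz hw (MM j)
      have h5 : ((NN j : ℝ) ^ 4 * Real.sqrt (2 * ‖z - w‖)) ^ 2 = 2 * (MM j) * ‖z - w‖ := by
        rw [mul_pow, Real.sq_sqrt (by positivity)]
        unfold MM
        push_cast
        ring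
      rw [← h5] at h4
      exact le_of_pow_le_pow_left₀ (by norm_num) (by positivity) h4
    have h6 : (NN j : ℝ) / MM j * (NN j : ℝ) ^ 4 ≤ (1 / 2) ^ j := by
      have h7 : (2 : ℝ) ^ j ≤ NN j := by exact_mod_cast two_pow_le_NN j
      unfold MM
      push_cast
      have h8 : (NN j : ℝ) / (NN j : ℝ) ^ 8 * (NN j : ℝ) ^ 4 = 1 / (NN j : ℝ) ^ 3 := by
        field_simp
      rw [h8, one_div_pow]
      apply one_div_le_one_div_of_le (by positivity)
      calc (2 : ℝ) ^ j ≤ NN j := h7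
        _ ≤ (NN j : ℝ) ^ 3 := le_self_pow₀ hN1 (by norm_num)
    calc (NN j : ℝ) / MM j * ‖z ^ MM j - w ^ MM j‖
        ≤ (NN j : ℝ) / MM j * ((NN j : ℝ) ^ 4 * Real.sqrt (2 * ‖z - w‖)) := by gcongr
      _ = ((NN j : ℝ) / MM j * (NN j : ℝ) ^ 4) * Real.sqrt (2 * ‖z - w‖) := by ring
      _ ≤ (1 / 2) ^ j * Real.sqrt (2 * ‖z - w‖) := by gcongr
  · rw [Set.indicator_of_notMem h, Set.indicator_of_notMem h, sub_zero, norm_zero]
    positivity

/-- the quotient `(h(z)-h(w))(h_A(z)-h_A(w))/(z-w)`. -/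
noncomputable def ee (A : Set ℕ) (p : ℂ × ℂ) : ℂ :=
  (hh Set.univ p.1 - hh Set.univ p.2) * (hh A p.1 - hh A p.2) / (p.1 - p.2)

lemma ee_bound (A : Set ℕ) : ∀ p ∈ bidisc, ‖ee A p‖ ≤ 8 := by
  intro p hp
  have h1 := hh_holder Set.univ hp.1.le hp.2.le
  have h2 := hh_holder A hp.1.le hp.2.le
  unfold ee
  rw [norm_div, norm_mul]
  by_cases h : p.1 - p.2 = 0
  · rw [h]; simp
  · have hpos : 0 < ‖p.1 - p.2‖ := norm_pos_iff.mpr h
    rw [div_le_iff₀ hpos]
    calc ‖hh Set.univ p.1 - hh Set.univ p.2‖ * ‖hh A p.1 - hh A p.2‖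
        ≤ (2 * Real.sqrt (2 * ‖p.1 - p.2‖)) * (2 * Real.sqrt (2 * ‖p.1 - p.2‖)) :=
          mul_le_mul h1 h2 (norm_nonneg _) (by positivity)
      _ = 4 * (Real.sqrt (2 * ‖p.1 - p.2‖) * Real.sqrt (2 * ‖p.1 - p.2‖)) := by ring
      _ = 8 * ‖p.1 - p.2‖ := by
          rw [Real.mul_self_sqrt (by positivity)]; ring

lemma hdiff (A : Set ℕ) : DifferentiableOn ℂ (fun p : ℂ × ℂ => hh A p.1 - hh A p.2) bidisc := by
  apply DifferentiableOn.sub
  · apply (hh_diff A).comp differentiable_fst.differentiableOn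
    intro p hp
    simpa using hp.1
  · apply (hh_diff A).comp differentiable_snd.differentiableOn
    intro p hp
    simpa using hp.2

lemma ee_diff (A : Set ℕ) : DifferentiableOn ℂ (ee A) bidisc := by
  intro p hp
  by_cases h : p.1 - p.2 = 0
  · -- diagonal point
    apply DifferentiableAt.differentiableWithinAt
    have hp1 : p.1 ∈ Metric.ball (0 : ℂ) 1 := by simpa using hp.1
    have hpp : p = (p.1, p.1) := by
      apply Prod.ext
      · rfl
      · exact (sub_eq_zero.mp h).symm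
    have h1 := (hh_strict Set.univ hp1).isLittleO
    have h2 := (hh_strict A hp1).isLittleO
    set a := psi Set.univ p.1 with ha
    set b := psi A p.1 with hb
    rw [← hpp] at h1 h2
    have hD : (fun q : ℂ × ℂ => q.1 - q.2) =O[𝓝 p] fun q => q - p := by
      have : ∀ q : ℂ × ℂ, ‖q.1 - q.2‖ ≤ 2 * ‖q - p‖ := by
        intro q
        have e : q.1 - q.2 = (q - p).1 - (q - p).2 := by
          simp only [Prod.fst_sub, Prod.snd_sub]
          linear_combination h
        rw [e]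
        have := norm_sub_le (q - p).1 (q - p).2
        have := norm_fst_le (q - p)
        have := norm_snd_le (q - p)
        linarith
      exact Asymptotics.IsBigO.of_bound 2 (Eventually.of_forall this)
    have key : (fun q : ℂ × ℂ => ee A q - (q.1 - q.2) * (a * b)) =o[𝓝 p]
        fun q : ℂ × ℂ => q.1 - q.2 := by
      have h3 : (fun q : ℂ × ℂ => (hh Set.univ q.1 - hh Set.univ q.2 - (q.1 - q.2) • a) *
          (hh A q.1 - hh A q.2 - (q.1 - q.2) • b) / (q.1 - q.2)) =o[𝓝 p]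
          fun q : ℂ × ℂ => q.1 - q.2 := by
        have h4 := h1.mul_isBigO h2.isBigO
        have h5 : (fun q : ℂ × ℂ => (hh Set.univ q.1 - hh Set.univ q.2 - (q.1 - q.2) • a) *
            (hh A q.1 - hh A q.2 - (q.1 - q.2) • b) / (q.1 - q.2)) =o[𝓝 p]
            fun q : ℂ × ℂ => (q.1 - q.2) * (q.1 - q.2) / (q.1 - q.2) := by
          simp only [div_eq_mul_inv]
          exact h4.mul_isBigO (Asymptotics.isBigO_refl _ _)
        refine h5.congr_right ?_
        intro q
        by_cases hq : q.1 - q.2 = 0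
        · rw [hq]; simp
        · field_simp
      have h6 : (fun q : ℂ × ℂ => a * (hh A q.1 - hh A q.2 - (q.1 - q.2) • b)) =o[𝓝 p]
          fun q : ℂ × ℂ => q.1 - q.2 := h2.const_mul_left a
      have h7 : (fun q : ℂ × ℂ => b * (hh Set.univ q.1 - hh Set.univ q.2 - (q.1 - q.2) • a))
          =o[𝓝 p] fun q : ℂ × ℂ => q.1 - q.2 := h1.const_mul_left b
      refine ((h3.add h6).add h7).congr_left ?_
      intro q
      unfold ee
      by_cases hq : q.1 - q.2 = 0
      · have hq' : q.1 = q.2 := sub_eq_zero.mp hq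
        rw [hq']; simp
      · simp only [smul_eq_mul]
        field_simp
        ring
    have hee0 : ee A p = 0 := by unfold ee; rw [h]; simp
    refine ⟨(a * b) • (ContinuousLinearMap.fst ℂ ℂ ℂ - ContinuousLinearMap.snd ℂ ℂ ℂ), ?_⟩
    rw [hasFDerivAt_iff_isLittleO]
    refine (key.trans_isBigO hD).congr_left ?_
    intro q
    rw [hee0]
    simp only [smul_apply, sub_apply,
      ContinuousLinearMap.coe_fst', ContinuousLinearMap.coe_snd', Prod.fst_sub, Prod.snd_sub,
      smul_eq_mul, sub_zero]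
    linear_combination (a * b) * (-1) * h
  · unfold ee
    simp only [div_eq_mul_inv]
    have h1 : DifferentiableWithinAt ℂ (fun q : ℂ × ℂ => q.1 - q.2) bidisc p := by fun_prop
    exact (((hdiff Set.univ) p hp).mul ((hdiff A) p hp)).mul (h1.inv h)

/-- the function `z - w` -/
noncomputable def ff : Hinf bidisc := mk (fun p => p.1 - p.2) (by fun_prop)
  ⟨2, fun p hp => (norm_sub_le _ _).trans (by linarith [hp.1, hp.2])⟩

/-- the function `h_A(z) - h_A(w)` -/
noncomputable def gg (A : Set ℕ) : Hinf bidisc := mk (fun p => hh A p.1 - hh A p.2) (hdiff A)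
  ⟨4, fun p hp => (norm_sub_le _ _).trans (by
    linarith [norm_hh_le A hp.1.le, norm_hh_le A hp.2.le])⟩

/-- the quotient as an element of the ring -/
noncomputable def aa (A : Set ℕ) : Hinf bidisc := mk (ee A) (ee_diff A) ⟨8, ee_bound A⟩

lemma resultAux :
    ∃ I J : Ideal (Hinf bidisc),
    I.IsPrincipal ∧ J.IsPrincipal ∧ ¬ (I ⊓ J).FG := by
  refine ⟨Ideal.span {ff}, Ideal.span {gg Set.univ}, ⟨⟨ff, rfl⟩⟩, ⟨⟨gg Set.univ, rfl⟩⟩, ?_⟩
  have hz0 : ∀ z ∈ Metric.ball (0 : ℂ) 1, (z, z) ∈ bidisc := by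
    intro z hz
    have hz' : ‖z‖ < 1 := by simpa using hz
    exact ⟨hz', hz'⟩
  have hcont : ∀ z ∈ Metric.ball (0 : ℂ) 1,
      Tendsto (fun t : ℂ => (z, z + t)) (𝓝[≠] 0) (𝓝 (z, z)) := by
    intro z _
    have : Continuous (fun t : ℂ => (z, z + t)) := by fun_prop
    have h := this.tendsto 0
    simp only [add_zero] at h
    exact h.mono_left nhdsWithin_le_nhds
  have hev : ∀ z ∈ Metric.ball (0 : ℂ) 1, ∀ᶠ t : ℂ in 𝓝[≠] 0, (z, z + t) ∈ bidisc := by
    intro z hz
    exact (hcont z hz).eventually (isOpen_bidisc.mem_nhds (hz0 z hz))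
  have hslope : ∀ (A : Set ℕ), ∀ z ∈ Metric.ball (0 : ℂ) 1,
      Tendsto (fun t : ℂ => (hh A (z + t) - hh A z) / t) (𝓝[≠] 0) (𝓝 (psi A z)) := by
    intro A z hz
    refine (hh_deriv A hz).tendsto_slope_zero.congr ?_
    intro t
    rw [smul_eq_mul]; ring
  apply not_fg isOpen_bidisc 1
  · intro z hz
    rw [one_mul]; exact hz0 z hz
  · -- limits of elements
    intro F hF
    obtain ⟨hF1, hF2⟩ := hF
    obtain ⟨a, ha⟩ := Ideal.mem_span_singleton'.mp hF1
    obtain ⟨b, hb⟩ := Ideal.mem_span_singleton'.mp hF2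
    have hca : ∀ (f : Hinf bidisc), ∀ z ∈ Metric.ball (0 : ℂ) 1,
        Tendsto (fun t : ℂ => ext f (z, z + t)) (𝓝[≠] 0) (𝓝 (ext f (z, z))) := by
      intro f z hz
      have : ContinuousAt (ext f) (z, z) :=
        ((ext_diff f).differentiableAt (isOpen_bidisc.mem_nhds (hz0 z hz))).continuousAt
      exact this.tendsto.comp (hcont z hz)
    have hFa : ∀ p ∈ bidisc, ext F p = ext a p * (p.1 - p.2) := by
      intro p hp
      rw [← ha, ext_mul _ _ hp]
      congr 1
      exact ext_mk _ _ _ hp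
    have hFb : ∀ p ∈ bidisc, ext F p = ext b p * (hh Set.univ p.1 - hh Set.univ p.2) := by
      intro p hp
      rw [← hb, ext_mul _ _ hp]
      congr 1
      exact ext_mk _ _ _ hp
    have hab : ∀ z ∈ Metric.ball (0 : ℂ) 1, ext a (z, z) = psi Set.univ z * ext b (z, z) := by
      intro z hz
      have h1 := hca a z hz
      have h2 := (hslope Set.univ z hz).mul (hca b z hz)
      refine tendsto_nhds_unique h1 (h2.congr' ?_)
      filter_upwards [hev z hz, self_mem_nhdsWithin] with t ht ht0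
      have h3 := hFa _ ht
      have h4 := hFb _ ht
      rw [h3] at h4
      simp only at h4
      have ht0' : t ≠ 0 := ht0
      rw [div_mul_eq_mul_div, div_eq_iff ht0']
      linear_combination h4
    have hb0 : ∀ z ∈ Metric.ball (0 : ℂ) 1, ext b (z, z) = 0 := by
      obtain ⟨C, hC⟩ := ext_bdd a
      have hdb : DifferentiableOn ℂ (fun z => ext b (z, z)) (Metric.ball 0 1) := by
        apply (ext_diff b).comp (t := bidisc)
        · fun_prop
        · intro z hz; exact hz0 z hz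
      apply eq_zero_of_psi_mul_bdd hdb C
      intro z hz
      rw [← hab z hz]
      exact hC _ (hz0 z hz)
    intro z hz
    have ha0 : ext a (z, z) = 0 := by rw [hab z hz, hb0 z hz, mul_zero]
    have hd : DifferentiableAt ℂ (fun t : ℂ => ext a (z, z + t)) 0 := by
      have h1 : DifferentiableAt ℂ (ext a) (z, z + 0) := by
        rw [add_zero]
        exact (ext_diff a).differentiableAt (isOpen_bidisc.mem_nhds (hz0 z hz))
      have h2 : DifferentiableAt ℂ (fun t : ℂ => (z, z + t)) 0 := by fun_prop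
      exact DifferentiableAt.comp (0 : ℂ) h1 h2
    have hs := hd.hasDerivAt.tendsto_slope_zero.neg
    refine ⟨_, hs.congr' ?_⟩
    filter_upwards [hev z hz, self_mem_nhdsWithin] with t ht ht0
    have ht0' : t ≠ 0 := ht0
    simp only [zero_add, one_mul, smul_eq_mul, add_zero, ha0, sub_zero]
    rw [hFa _ ht]
    field_simp
    ring
  · intro A
    refine ⟨gg Set.univ * gg A, ⟨?_, ?_⟩, ?_⟩
    · apply Ideal.mem_span_singleton'.mpr
      refine ⟨aa A, ?_⟩
      apply Subtype.ext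
      funext p
      show ee A p.1 * (p.1.1 - p.1.2) =
        (hh Set.univ p.1.1 - hh Set.univ p.1.2) * (hh A p.1.1 - hh A p.1.2)
      unfold ee
      by_cases h : p.1.1 - p.1.2 = 0
      · have h' : p.1.1 = p.1.2 := sub_eq_zero.mp h
        rw [h']; simp
      · field_simp
    · exact Ideal.mem_span_singleton'.mpr ⟨gg A, mul_comm _ _⟩
    · intro z hz
      have h1 := (hslope Set.univ z hz).mul (hslope A z hz)
      refine h1.congr' ?_
      filter_upwards [hev z hz, self_mem_nhdsWithin] with t ht ht0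
      have ht0' : t ≠ 0 := ht0
      have ht' : (z, 1 * z + t) ∈ bidisc := by rw [one_mul]; exact ht
      rw [ext_mul _ _ ht']
      have e1 : ext (gg Set.univ) (z, 1 * z + t) = hh Set.univ z - hh Set.univ (z + t) := by
        rw [one_mul]; exact ext_mk _ _ _ ht
      have e2 : ext (gg A) (z, 1 * z + t) = hh A z - hh A (z + t) := by
        rw [one_mul]; exact ext_mk _ _ _ ht
      rw [e1, e2]
      field_simp
      ring

/-- The ring `H^∞(D²)` of bounded holomorphic functions on `bidisc`. -/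
def HinfBidisc : Type := Hinf bidisc

/-- Its ring structure: pointwise addition and multiplication. -/
noncomputable instance : CommRing HinfBidisc := (Hinf bidisc).toCommRing

/-- There are two principal ideals of `H^∞(D²)` whose intersection is not finitely generated. -/
theorem result : ∃ I J : Ideal HinfBidisc, I.IsPrincipal ∧ J.IsPrincipal ∧ ¬ (I ⊓ J).FG :=
  resultAux

end Pool.Agent.Results.MP_b621dd_an.BidiscIntersection
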